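import Mathlib

/-! Counting rational functions over a finite field. -/

set_option autoImplicit false

open Polynomial UniqueFactorizationMonoid

namespace Pool.Agent.R437.FF

section Fac

variable {k : Type} [Field k] [DecidableEq k]

/-- the simple monic prime factors -/
noncomputable def simplePrimes (w : k[X]) : Finset k[X] := by
  classical exact (normalizedFactors w).toFinset.filter (fun p => (normalizedFactors w).count p = 1)

theorem mem_simple {w p : k[X]} (hw : w ≠ 0) (hp : p ∈ simplePrimes w) :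
    p.Monic ∧ Irreducible p ∧ p ^ 1 ∣ w ∧ ¬ p ^ (1 + 1) ∣ w := by
  classical
  unfold simplePrimes at hp
  rw [Finset.mem_filter, Multiset.mem_toFinset] at hp
  obtain ⟨h1, h2⟩ := hp
  have h3 := irreducible_of_normalized_factor p h1
  have h4 := normalize_normalized_factor p h1
  have h5 : emultiplicity p w = ((normalizedFactors w).count (normalize p) : ℕ) :=
    emultiplicity_eq_count_normalizedFactors h3 hw
  rw [h4, h2] at h5
  refine ⟨?_, h3, ?_, ?_⟩
  · rw [← h4]
    exact monic_normalize h3.ne_zero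
  · rw [pow_one]
    exact dvd_of_mem_normalizedFactors h1
  · intro h6
    have h7 := le_emultiplicity_of_pow_dvd h6
    rw [h5] at h7
    exact absurd h7 (by norm_num)

theorem decomp {w : k[X]} (hw : w.Monic) : ∃ a b c : k[X], a.Monic ∧ b.Monic ∧ c.Monic ∧
    w = a * b ^ 2 * c ^ 3 ∧ a.natDegree = ∑ p ∈ simplePrimes w, p.natDegree := by
  classical
  set S := (normalizedFactors w).toFinset with hS
  set n : k[X] → ℕ := fun p => (normalizedFactors w).count p with hn
  have hmon : ∀ p ∈ S, p.Monic := by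
    intro p hp
    rw [hS, Multiset.mem_toFinset] at hp
    rw [← normalize_normalized_factor p hp]
    exact monic_normalize (irreducible_of_normalized_factor p hp).ne_zero
  have hw2 : w = ∏ p ∈ S, p ^ n p := by
    rw [← Finset.prod_multiset_count]
    refine eq_of_monic_of_associated hw ?_ (prod_normalizedFactors hw.ne_zero).symm
    rw [Finset.prod_multiset_count]
    exact monic_prod_of_monic _ _ fun p hp => (hmon p hp).pow _
  refine ⟨∏ p ∈ S.filter (fun p => n p = 1), p,
    ∏ p ∈ S, p ^ (if n p = 1 then 0 else if n p % 2 = 1 then (n p - 3) / 2 else n p / 2),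
    ∏ p ∈ S, p ^ (if n p = 1 then 0 else if n p % 2 = 1 then 1 else 0), ?_, ?_, ?_, ?_, ?_⟩
  · exact monic_prod_of_monic _ _ fun p hp => hmon p (Finset.mem_filter.1 hp).1
  · exact monic_prod_of_monic _ _ fun p hp => (hmon p hp).pow _
  · exact monic_prod_of_monic _ _ fun p hp => (hmon p hp).pow _
  · conv_lhs => rw [hw2]
    rw [Finset.prod_filter, ← Finset.prod_pow, ← Finset.prod_pow, ← Finset.prod_mul_distrib,
      ← Finset.prod_mul_distrib]
    refine Finset.prod_congr rfl fun p _ => ?_
    by_cases h1 : n p = 1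
    · simp [h1]
    · simp only [h1, if_false, one_mul]
      by_cases h2 : n p % 2 = 1
      · simp only [h2, if_true]
        rw [← pow_mul, ← pow_mul, ← pow_add]
        congr 1
        omega
      · simp only [h2, if_false]
        rw [← pow_mul, ← pow_mul, ← pow_add]
        congr 1
        omega
  · rw [natDegree_prod_of_monic _ _ fun p hp => hmon p (Finset.mem_filter.1 hp).1]
    rfl

end Fac

section Cnt

variable {k : Type} [Field k]

/-- the height -/
noncomputable def ht (c : RatFunc k) : ℕ := max c.num.natDegree c.denom.natDegree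

/-- the polynomial with given coefficients -/
noncomputable def pl (n : ℕ) (f : Fin n → k) : k[X] := ∑ i : Fin n, C (f i) * X ^ (i : ℕ)

theorem pl_surj {n : ℕ} {p : k[X]} (hp : p.degree < n) : pl n (fun i => p.coeff i) = p := by
  unfold pl
  rw [Fin.sum_univ_eq_sum_range (fun i => C (p.coeff i) * X ^ i) n]
  ext i
  rw [finsetSum_coeff]
  simp only [coeff_C_mul, coeff_X_pow, mul_ite, mul_one, mul_zero]
  rw [Finset.sum_ite_eq]
  by_cases h : i < n
  · simp [h]
  · rw [if_neg (by simpa using h)]
    exact (coeff_eq_zero_of_degree_lt (lt_of_lt_of_le hp (by exact_mod_cast not_lt.1 h))).symm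

theorem pl_inj {n : ℕ} {f g : Fin n → k} (h : pl n f = pl n g) : f = g := by
  funext i
  have h1 : ∀ f : Fin n → k, (pl n f).coeff i = f i := by
    intro f
    unfold pl
    rw [finsetSum_coeff]
    simp only [coeff_C_mul, coeff_X_pow, mul_ite, mul_one, mul_zero]
    rw [Finset.sum_eq_single i]
    · simp
    · intro j _ hj
      rw [if_neg]
      intro h
      exact hj (Fin.ext h.symm)
    · simp
  rw [← h1 f, h, h1]

theorem pl_deg {n : ℕ} (f : Fin n → k) : (pl n f).degree < n := by
  unfold pl
  refine lt_of_le_of_lt (degree_sum_le _ _) ?_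
  rw [Finset.sup_lt_iff (by exact_mod_cast WithBot.bot_lt_coe n)]
  intro i _
  refine lt_of_le_of_lt (degree_C_mul_X_pow_le _ _) ?_
  exact_mod_cast i.2

/-- the monic polynomial with given lower coefficients -/
noncomputable def mon (n : ℕ) (f : Fin n → k) : k[X] := X ^ n + pl n f

theorem mon_surj {n : ℕ} {p : k[X]} (hp : p.Monic) (hn : p.natDegree = n) :
    ∃ f : Fin n → k, mon n f = p := by
  have h1 : (p - X ^ n).degree < (n : WithBot ℕ) := by
    have h2 : p.degree = n := by rw [← hn]; exact degree_eq_natDegree hp.ne_zero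
    have h3 := degree_sub_lt_left (p := p) (q := X ^ n) (by rw [h2, degree_X_pow]) hp.ne_zero
      (by rw [hp.leadingCoeff, leadingCoeff_X_pow])
    rwa [h2] at h3
  refine ⟨fun i => (p - X ^ n).coeff i, ?_⟩
  unfold mon
  rw [pl_surj h1]
  ring

theorem mon_monic (n : ℕ) (f : Fin n → k) : (mon n f).Monic :=
  monic_X_pow_add (pl_deg f)

theorem mon_natDegree (n : ℕ) (f : Fin n → k) : (mon n f).natDegree = n := by
  unfold mon
  rw [natDegree_add_eq_left_of_degree_lt, natDegree_X_pow]
  rw [degree_X_pow]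
  exact pl_deg f

variable [Fintype k]

/-- rational functions of height at most `B` are finite in number -/
theorem finite_ht (B : ℕ) : {c : RatFunc k | ht c ≤ B}.Finite := by
  classical
  have h1 : (Set.range fun p : (Fin (B + 1) → k) × (Fin (B + 1) → k) =>
      (algebraMap k[X] (RatFunc k) (pl (B + 1) p.1) /
        algebraMap k[X] (RatFunc k) (pl (B + 1) p.2) : RatFunc k)).Finite := Set.finite_range _
  refine h1.subset ?_
  intro c hc
  have h2 : ∀ p : k[X], p.natDegree ≤ B → p.degree < (B + 1 : ℕ) := by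
    intro p hp
    exact lt_of_le_of_lt degree_le_natDegree (by exact_mod_cast Nat.lt_succ_of_le hp)
  have h3 : max c.num.natDegree c.denom.natDegree ≤ B := hc
  refine ⟨(fun i => c.num.coeff i, fun i => c.denom.coeff i), ?_⟩
  simp only
  rw [pl_surj (h2 _ (le_trans (le_max_left _ _) h3)), pl_surj (h2 _ (le_trans (le_max_right _ _) h3)),
    RatFunc.num_div_denom]

/-- few rational functions have a denominator with small squarefree simple part -/
theorem count_exc [DecidableEq k] (B : ℕ) (κ : ℝ) :
    ({c : RatFunc k | ht c ≤ B ∧ ((∑ p ∈ simplePrimes c.denom, p.natDegree : ℕ) : ℝ) ≤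
      κ * B}.ncard : ℝ) ≤
      (B + 1) ^ 3 * (Fintype.card k : ℝ) ^ ((3 + κ) / 2 * B + 1) := by
  classical
  set q := Fintype.card k with hq
  have hq1 : (1 : ℝ) < q := by exact_mod_cast Fintype.one_lt_card
  set I : Finset (ℕ × ℕ × ℕ) := ((Finset.range (B + 1)) ×ˢ (Finset.range (B + 1)) ×ˢ
    (Finset.range (B + 1))).filter
      (fun t => (t.1 : ℝ) ≤ κ * B ∧ t.1 + 2 * t.2.1 + 3 * t.2.2 ≤ B) with hI
  set F : ∀ t : ℕ × ℕ × ℕ, (Fin t.1 → k) × (Fin t.2.1 → k) × (Fin t.2.2 → k) ×
      (Fin (B + 1) → k) → RatFunc k := fun t f =>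
    algebraMap k[X] (RatFunc k) (pl (B + 1) f.2.2.2) /
      algebraMap k[X] (RatFunc k) (mon t.1 f.1 * mon t.2.1 f.2.1 ^ 2 * mon t.2.2 f.2.2.1 ^ 3)
    with hF
  set G : Finset (RatFunc k) := I.biUnion (fun t => Finset.univ.image (F t)) with hG
  have hsub : {c : RatFunc k | ht c ≤ B ∧ ((∑ p ∈ simplePrimes c.denom, p.natDegree : ℕ) : ℝ) ≤
      κ * B} ⊆ (G : Set (RatFunc k)) := by
    rintro c ⟨hc1, hc2⟩
    have h3 : max c.num.natDegree c.denom.natDegree ≤ B := hc1
    obtain ⟨a, b, d, ha, hb, hd, hw, hdeg⟩ := decomp (RatFunc.monic_denom c)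
    have hdw : c.denom.natDegree = a.natDegree + 2 * b.natDegree + 3 * d.natDegree := by
      conv_lhs => rw [hw]
      rw [Monic.natDegree_mul (ha.mul (hb.pow 2)) (hd.pow 3), Monic.natDegree_mul ha (hb.pow 2),
        hb.natDegree_pow, hd.natDegree_pow]
    have h4 : c.denom.natDegree ≤ B := le_trans (le_max_right _ _) h3
    have h5 : c.num.degree < (B + 1 : ℕ) :=
      lt_of_le_of_lt degree_le_natDegree (by
        exact_mod_cast Nat.lt_succ_of_le (le_trans (le_max_left _ _) h3))
    obtain ⟨fa, hfa⟩ := mon_surj ha rfl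
    obtain ⟨fb, hfb⟩ := mon_surj hb rfl
    obtain ⟨fd, hfd⟩ := mon_surj hd rfl
    rw [hG, Finset.mem_coe, Finset.mem_biUnion]
    refine ⟨(a.natDegree, b.natDegree, d.natDegree), ?_, ?_⟩
    · rw [hI, Finset.mem_filter, Finset.mem_product, Finset.mem_product, Finset.mem_range,
        Finset.mem_range, Finset.mem_range]
      refine ⟨⟨?_, ?_, ?_⟩, ?_, ?_⟩
      · show a.natDegree < B + 1
        omega
      · show b.natDegree < B + 1
        omega
      · show d.natDegree < B + 1
        omega
      · show (a.natDegree : ℝ) ≤ κ * B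
        rw [hdeg]
        exact hc2
      · show a.natDegree + 2 * b.natDegree + 3 * d.natDegree ≤ B
        omega
    · rw [Finset.mem_image]
      refine ⟨(fa, fb, fd, fun i => c.num.coeff i), Finset.mem_univ _, ?_⟩
      rw [hF]
      simp only
      rw [hfa, hfb, hfd, pl_surj h5, ← hw, RatFunc.num_div_denom]
  have h6 : ({c : RatFunc k | ht c ≤ B ∧ ((∑ p ∈ simplePrimes c.denom, p.natDegree : ℕ) : ℝ) ≤
      κ * B}.ncard : ℝ) ≤ (G.card : ℝ) := by
    rw [← Set.ncard_coe_finset]
    exact_mod_cast Set.ncard_le_ncard hsub G.finite_toSet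
  have h7 : (G.card : ℝ) ≤ ∑ t ∈ I, (q : ℝ) ^ ((3 + κ) / 2 * B + 1) := by
    have h8 : G.card ≤ ∑ t ∈ I, q ^ (t.1 + t.2.1 + t.2.2 + (B + 1)) := by
      refine Finset.card_biUnion_le.trans (Finset.sum_le_sum fun t _ => ?_)
      refine Finset.card_image_le.trans (le_of_eq ?_)
      rw [Finset.card_univ, Fintype.card_prod, Fintype.card_prod, Fintype.card_prod,
        Fintype.card_fun, Fintype.card_fun, Fintype.card_fun, Fintype.card_fun, Fintype.card_fin,
        Fintype.card_fin, Fintype.card_fin, Fintype.card_fin, ← hq]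
      ring
    refine (Nat.cast_le.2 h8).trans ?_
    rw [Nat.cast_sum]
    refine Finset.sum_le_sum fun t ht => ?_
    rw [hI, Finset.mem_filter] at ht
    rw [Nat.cast_pow, ← Real.rpow_natCast]
    refine Real.rpow_le_rpow_of_exponent_le hq1.le ?_
    have h9 : (t.1 : ℝ) + 2 * t.2.1 + 3 * t.2.2 ≤ B := by exact_mod_cast ht.2.2
    have h10 : (0 : ℝ) ≤ t.2.2 := Nat.cast_nonneg _
    push_cast
    linarith [ht.2.1]
  have h11 : (I.card : ℝ) ≤ (B + 1) ^ 3 := by
    have : I.card ≤ (B + 1) ^ 3 := by
      refine (Finset.card_filter_le _ _).trans (le_of_eq ?_)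
      rw [Finset.card_product, Finset.card_product, Finset.card_range]
      ring
    exact_mod_cast this
  rw [Finset.sum_const, nsmul_eq_mul] at h7
  refine h6.trans (h7.trans ?_)
  exact mul_le_mul_of_nonneg_right h11 (Real.rpow_nonneg (by positivity) _)

end Cnt

end Pool.Agent.R437.FF
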