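import Mathlib

/-! Maps `c + P / Q ^ m` at a place where `c` has a pole and `P`, `Q` are integral and coprime. -/

set_option autoImplicit false

open Polynomial

namespace Pool.Agent.R437.FF

theorem mlt {Γ : Type} [LinearOrderedCommGroupWithZero Γ] {a b : Γ} (ha : a ≤ 1) (hb : b < 1) :
    a * b < 1 := lt_of_le_of_lt (mul_le_of_le_one_left' ha) hb

theorem exists_val {k L : Type} [Field k] [Field L] (ι : k[X] →+* L) (hι : Function.Injective ι)
    {π : k[X]} (hπ : Irreducible π) :
    ∃ B : ValuationSubring L, (∀ a, B.valuation (ι a) ≤ 1) ∧ B.valuation (ι π) < 1 := by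
  let A : Subring L := ι.range
  let x : A := ⟨ι π, π, rfl⟩
  obtain ⟨B, h1, h2⟩ := Ideal.image_subset_nonunits_valuationSubring (A := A) (Ideal.span {x}) (by
    rw [Ne, Ideal.span_singleton_eq_top, isUnit_iff_exists_inv]
    rintro ⟨⟨_, b, rfl⟩, hb⟩
    have h3 : ι (π * b) = ι 1 := by
      have := congrArg Subtype.val hb
      simpa [x] using this
    exact hπ.not_isUnit (IsUnit.of_mul_eq_one b (hι h3)))
  refine ⟨B, fun a => (B.valuation_le_one_iff _).2 (h1 ⟨a, rfl⟩), ?_⟩
  exact (ValuationSubring.mem_nonunits_iff B).1 (h2 ⟨x, Ideal.mem_span_singleton_self x, rfl⟩)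

section Val

variable {k L Γ : Type} [Field k] [Field L] [LinearOrderedCommGroupWithZero Γ]
  {v : Valuation L Γ} {ι : k[X] →+* L} {π : k[X]}

theorem v_unit (h1 : ∀ a, v (ι a) ≤ 1) (hv : v (ι π) < 1) (hπ : Irreducible π) {a : k[X]}
    (ha : ¬ π ∣ a) : v (ι a) = 1 := by
  obtain ⟨s, t, hst⟩ := (hπ.coprime_iff_not_dvd).2 ha
  have h2 : v (ι (s * π)) < 1 := by
    rw [map_mul, map_mul]
    exact mlt (h1 s) hv
  have h3 : v (ι (t * a)) = 1 := by
    have e : ι (t * a) = 1 - ι (s * π) := by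
      rw [← map_one ι, ← hst, map_add]
      ring
    rw [e]
    exact Valuation.map_one_sub_of_lt _ h2
  rw [map_mul, map_mul] at h3
  refine le_antisymm (h1 a) ?_
  by_contra hlt
  push Not at hlt
  have := mlt (h1 t) hlt
  rw [h3] at this
  exact lt_irrefl _ this

theorem v_poly (h1 : ∀ a, v (ι a) ≤ 1) (hv : v (ι π) < 1) (hπ : Irreducible π) {a : k[X]}
    (ha : a ≠ 0) : ∃ n : ℕ, v (ι a) = v (ι π) ^ n := by
  obtain ⟨b, hb, hb'⟩ := (FiniteMultiplicity.of_not_isUnit hπ.not_isUnit
    ha).exists_eq_pow_mul_and_not_dvd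
  refine ⟨multiplicity π a, ?_⟩
  conv_lhs => rw [hb]
  rw [map_mul, map_mul, map_pow, map_pow, v_unit h1 hv hπ hb', mul_one]

theorem v_rat {ρ : RatFunc k →+* L} (h1 : ∀ a, v (ρ (algebraMap k[X] (RatFunc k) a)) ≤ 1)
    (hv : v (ρ (algebraMap k[X] (RatFunc k) π)) < 1) (hπ : Irreducible π) {x : RatFunc k}
    (hx : x ≠ 0) : ∃ n : ℤ, v (ρ x) = v (ρ (algebraMap k[X] (RatFunc k) π)) ^ n := by
  obtain ⟨i, hi⟩ := v_poly (ι := ρ.comp (algebraMap k[X] (RatFunc k))) h1 hv hπ
    (RatFunc.num_ne_zero hx)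
  obtain ⟨j, hj⟩ := v_poly (ι := ρ.comp (algebraMap k[X] (RatFunc k))) h1 hv hπ
    (RatFunc.denom_ne_zero x)
  have h0 : v (ρ (algebraMap k[X] (RatFunc k) π)) ≠ 0 := by
    rw [Ne, map_eq_zero, map_eq_zero]
    exact fun h => hπ.ne_zero ((map_eq_zero_iff _ (RatFunc.algebraMap_injective k)).1 h)
  refine ⟨(i : ℤ) - j, ?_⟩
  rw [zpow_sub₀ h0, zpow_natCast, zpow_natCast]
  have e : v (ρ x) = v (ρ (algebraMap k[X] (RatFunc k) x.num)) /
      v (ρ (algebraMap k[X] (RatFunc k) x.denom)) := by
    rw [← map_div₀, ← map_div₀, RatFunc.num_div_denom]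
  simp only [RingHom.comp_apply] at hi hj
  rw [e, hi, hj]

theorem no_root {ρ : RatFunc k →+* L} (h1 : ∀ a, v (ρ (algebraMap k[X] (RatFunc k) a)) ≤ 1)
    (hv : v (ρ (algebraMap k[X] (RatFunc k) π)) < 1) (hπ : Irreducible π) {m n : ℕ}
    (hmn : Nat.Coprime n m) (x : L) (p : (RatFunc k)[X]) (hp0 : p ≠ 0) (hp : p.natDegree < m)
    (hpx : (p.map ρ).eval x = 0)
    (h : v x ^ m = v (ρ (algebraMap k[X] (RatFunc k) π)) ^ (-(n : ℤ))) : False := by
  classical
  set w := v (ρ (algebraMap k[X] (RatFunc k) π)) with hw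
  have h0 : w ≠ 0 := by
    rw [hw, Ne, map_eq_zero, map_eq_zero]
    exact fun h => hπ.ne_zero ((map_eq_zero_iff _ (RatFunc.algebraMap_injective k)).1 h)
  have hw0 : 0 < w := zero_lt_iff.2 h0
  have hm : 0 < m := by omega
  have hx0 : v x ≠ 0 := by
    intro hx
    rw [hx, zero_pow hm.ne'] at h
    exact (zpow_ne_zero _ h0) h.symm
  -- the valuations of the terms are different
  have hne : ∀ i ∈ p.support, v (ρ (p.coeff i) * x ^ i) ≠ 0 := by
    intro i hi
    rw [map_mul, map_pow]
    refine mul_ne_zero ?_ (pow_ne_zero _ hx0)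
    rw [Ne, map_eq_zero, map_eq_zero]
    exact mem_support_iff.1 hi
  have hinj : ∀ i ∈ p.support, ∀ j ∈ p.support, i < j →
      v (ρ (p.coeff i) * x ^ i) ≠ v (ρ (p.coeff j) * x ^ j) := by
    intro i hi j hj hij heq
    obtain ⟨a, ha⟩ := v_rat h1 hv hπ (mem_support_iff.1 hi)
    obtain ⟨b, hb⟩ := v_rat h1 hv hπ (mem_support_iff.1 hj)
    rw [map_mul, map_mul, map_pow, map_pow, ha, hb, ← hw] at heq
    obtain ⟨l, rfl⟩ : ∃ l, j = i + l := ⟨j - i, by omega⟩
    have h3 : w ^ a = w ^ b * v x ^ l := by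
      have h4 : v x ^ i ≠ 0 := pow_ne_zero _ hx0
      rw [pow_add, mul_comm (v x ^ i), ← mul_assoc] at heq
      exact mul_right_cancel₀ h4 heq
    have h5 : v x ^ l = w ^ (a - b) := by
      rw [zpow_sub₀ h0, h3, mul_comm, mul_div_assoc, div_self (zpow_ne_zero _ h0), mul_one]
    have h6 : w ^ (-(n : ℤ) * l) = w ^ ((a - b) * m) := by
      rw [zpow_mul, ← h, zpow_mul, ← h5, zpow_natCast, zpow_natCast, ← pow_mul, ← pow_mul,
        mul_comm]
    have h7 := zpow_right_injective₀ hw0 hv.ne h6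
    have h8 : (m : ℤ) ∣ n * l := ⟨-(a - b), by linear_combination -h7⟩
    have h9 : m ∣ n * l := by exact_mod_cast h8
    have h10 : m ∣ l := (Nat.Coprime.dvd_of_dvd_mul_left hmn.symm h9)
    have h11 := Nat.le_of_dvd (by omega) h10
    have h12 := le_natDegree_of_mem_supp _ hj
    omega
  obtain ⟨j, hj, hmax⟩ := Finset.exists_max_image p.support
    (fun i => v (ρ (p.coeff i) * x ^ i)) (nonempty_support_iff.2 hp0)
  have hsum : ∑ i ∈ p.support, ρ (p.coeff i) * x ^ i = 0 := by
    rw [← hpx, eval_map, eval₂_eq_sum, Polynomial.sum]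
  have h3 := Valuation.map_sum_eq_of_lt v (f := fun i => ρ (p.coeff i) * x ^ i) hj (by
    intro i hi
    rw [Finset.mem_sdiff, Finset.mem_singleton] at hi
    refine lt_of_le_of_ne (hmax i hi.1) ?_
    rcases lt_or_gt_of_ne hi.2 with h | h
    · exact hinj i hi.1 j hj h
    · exact fun h' => hinj j hj i hi.1 h h'.symm)
  rw [hsum, map_zero] at h3
  exact hne j hj h3.symm

end Val

section Dyn

variable {L Γ : Type} [Field L] [LinearOrderedCommGroupWithZero Γ] {v : Valuation L Γ}

theorem eval_le {P : L[X]} (hP : ∀ i, v (P.coeff i) ≤ 1) {x : L} (hx : v x ≤ 1) :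
    v (P.eval x) ≤ 1 := by
  rw [eval_eq_sum_range]
  refine v.map_sum_le fun i _ => ?_
  rw [map_mul, map_pow]
  exact mul_le_one' (hP i) (pow_le_one' hx i)

theorem eval_big {P : L[X]} (hP : ∀ i, v (P.coeff i) ≤ 1) (hl : v P.leadingCoeff = 1) {x : L}
    (hx : 1 < v x) : v (P.eval x) = v x ^ P.natDegree := by
  classical
  rw [eval_eq_sum_range]
  rw [Valuation.map_sum_eq_of_lt v (j := P.natDegree) (by simp)]
  · rw [map_mul, map_pow, coeff_natDegree, hl, one_mul]
  · intro i hi
    rw [Finset.mem_sdiff, Finset.mem_range, Finset.mem_singleton] at hi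
    rw [map_mul, map_mul, map_pow, map_pow, coeff_natDegree, hl, one_mul]
    refine lt_of_le_of_lt (mul_le_of_le_one_left' (hP i)) ?_
    exact pow_lt_pow_right₀ hx (by omega)

/-- the map `c + P / Q ^ m` -/
noncomputable def fn (c : L) (P Q : L[X]) (m : ℕ) (x : L) : L :=
  c + P.eval x / Q.eval x ^ m

theorem ratio_ne {c : L} {P Q A B : L[X]} {m e : ℕ} (hc : 1 < v c)
    (hP : ∀ i, v (P.coeff i) ≤ 1) (hQ : ∀ i, v (Q.coeff i) ≤ 1)
    (hA : ∀ i, v (A.coeff i) ≤ 1) (hB : ∀ i, v (B.coeff i) ≤ 1) (hAB : A * P + B * Q = 1)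
    (hPl : v P.leadingCoeff = 1) (hQl : v Q.leadingCoeff = 1)
    (hdeg : P.natDegree = m * Q.natDegree + e)
    (hm : ∀ x, v x ^ m ≠ v c) (he : ∀ x, v x ^ e ≠ v c) (x : L) :
    v (P.eval x / Q.eval x ^ m) ≠ v c := by
  intro heq
  rcases le_or_gt (v x) 1 with h | h
  · have h1 := eval_le hP h
    have h2 := eval_le hQ h
    have h3 : v (Q.eval x) < 1 := by
      refine lt_of_le_of_ne h2 fun h4 => ?_
      rw [map_div₀, map_pow, h4, one_pow, div_one] at heq
      rw [heq] at h1
      exact absurd hc (not_lt.2 h1)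
    have h5 : v (A.eval x * P.eval x) = 1 := by
      have e1 : A.eval x * P.eval x = 1 - B.eval x * Q.eval x := by
        have := congrArg (eval x) hAB
        simp only [eval_add, eval_mul, eval_one] at this
        linear_combination this
      rw [e1]
      refine Valuation.map_one_sub_of_lt _ ?_
      rw [map_mul]
      exact mlt (eval_le hB h) h3
    have h6 : v (P.eval x) = 1 := by
      refine le_antisymm h1 ?_
      by_contra h7
      push Not at h7
      rw [map_mul] at h5
      have := mlt (eval_le hA h) h7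
      rw [h5] at this
      exact lt_irrefl _ this
    apply hm (Q.eval x)⁻¹
    rw [← heq, map_div₀, h6, map_pow, map_inv₀, inv_pow, one_div]
  · apply he x
    rw [← heq, map_div₀, map_pow, eval_big hP hPl h, eval_big hQ hQl h, ← pow_mul, hdeg,
      mul_comm Q.natDegree, pow_add]
    have h0 : v x ^ (m * Q.natDegree) ≠ 0 := pow_ne_zero _ (ne_of_gt (lt_trans zero_lt_one h))
    rw [mul_comm, mul_div_assoc, div_self h0, mul_one]

theorem fn_le {c : L} {P Q : L[X]} {m : ℕ} {x : L}
    (h : v (P.eval x / Q.eval x ^ m) ≠ v c) :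
    v (fn c P Q m x) = max (v c) (v (P.eval x / Q.eval x ^ m)) := by
  unfold fn
  rcases lt_or_gt_of_ne h with h | h
  · rw [Valuation.map_add_eq_of_lt_left _ h, max_eq_left h.le]
  · rw [Valuation.map_add_eq_of_lt_right _ h, max_eq_right h.le]

theorem fn_big {c : L} {P Q : L[X]} {m e : ℕ} (hc : 1 < v c) (he2 : 2 ≤ e)
    (hP : ∀ i, v (P.coeff i) ≤ 1) (hQ : ∀ i, v (Q.coeff i) ≤ 1)
    (hPl : v P.leadingCoeff = 1) (hQl : v Q.leadingCoeff = 1)
    (hdeg : P.natDegree = m * Q.natDegree + e) (y : L) (hy : v c ≤ v y) :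
    Q.eval y ≠ 0 ∧ v y < v (fn c P Q m y) := by
  have h1 : 1 < v y := lt_of_lt_of_le hc hy
  have hQy : v (Q.eval y) ≠ 0 := by
    rw [eval_big hQ hQl h1]
    exact pow_ne_zero _ (ne_of_gt (lt_trans zero_lt_one h1))
  have hr : v (P.eval y / Q.eval y ^ m) = v y ^ e := by
    rw [map_div₀, map_pow, eval_big hP hPl h1, eval_big hQ hQl h1, ← pow_mul, hdeg,
      mul_comm Q.natDegree, pow_add]
    have h0 : v y ^ (m * Q.natDegree) ≠ 0 := pow_ne_zero _ (ne_of_gt (lt_trans zero_lt_one h1))
    rw [mul_comm, mul_div_assoc, div_self h0, mul_one]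
  have h2 : v y < v y ^ e := by
    calc v y = v y ^ 1 := (pow_one _).symm
      _ < v y ^ e := pow_lt_pow_right₀ h1 (by omega)
  refine ⟨fun h => hQy (by rw [h, map_zero]), ?_⟩
  have h3 : v c < v (P.eval y / Q.eval y ^ m) := by
    rw [hr]
    exact lt_of_le_of_lt hy h2
  rw [fn_le h3.ne', max_eq_right h3.le, hr]
  exact h2

/-- the self-map of the projective line -/
noncomputable def mp (c : L) (P Q : L[X]) (m : ℕ) : Option L → Option L
  | none => none
  | some x => by classical exact if Q.eval x = 0 then none else some (c + P.eval x / Q.eval x ^ m)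

theorem preper {c : L} {P Q A B : L[X]} {m e : ℕ} (hc : 1 < v c) (he2 : 2 ≤ e)
    (hP : ∀ i, v (P.coeff i) ≤ 1) (hQ : ∀ i, v (Q.coeff i) ≤ 1)
    (hA : ∀ i, v (A.coeff i) ≤ 1) (hB : ∀ i, v (B.coeff i) ≤ 1) (hAB : A * P + B * Q = 1)
    (hPl : v P.leadingCoeff = 1) (hQl : v Q.leadingCoeff = 1)
    (hdeg : P.natDegree = m * Q.natDegree + e)
    (hm : ∀ x, v x ^ m ≠ v c) (he : ∀ x, v x ^ e ≠ v c) :
    {z : Option L | (Set.range fun n : ℕ => (mp c P Q m)^[n] z).Finite} =
      insert none (some '' {x | Q.eval x = 0}) := by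
  classical
  ext z
  constructor
  · intro hz
    rcases z with _ | x
    · exact Set.mem_insert _ _
    · right
      refine ⟨x, ?_, rfl⟩
      by_contra hx
      change ¬ Q.eval x = 0 at hx
      -- the orbit
      set f := fn c P Q m with hf
      have hstep : ∀ y, Q.eval y ≠ 0 → mp c P Q m (some y) = some (f y) := by
        intro y hy
        simp [mp, hy, hf, fn]
      have h1 : v c ≤ v (f x) := by
        rw [hf, fn_le (ratio_ne hc hP hQ hA hB hAB hPl hQl hdeg hm he x)]
        exact le_max_left _ _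
      have h2 : ∀ n, v c ≤ v (f^[n] (f x)) := by
        intro n
        induction n with
        | zero => exact h1
        | succ n ih =>
          rw [Function.iterate_succ_apply']
          exact ih.trans (fn_big hc he2 hP hQ hPl hQl hdeg _ ih).2.le
      have h3 : StrictMono fun n => v (f^[n] (f x)) := by
        refine strictMono_nat_of_lt_succ fun n => ?_
        simp only [Function.iterate_succ_apply']
        exact (fn_big hc he2 hP hQ hPl hQl hdeg _ (h2 n)).2
      have h4 : ∀ n, (mp c P Q m)^[n + 1] (some x) = some (f^[n] (f x)) := by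
        intro n
        induction n with
        | zero => simpa using hstep x hx
        | succ n ih =>
          rw [Function.iterate_succ_apply', ih, Function.iterate_succ_apply' f,
            hstep _ (fn_big hc he2 hP hQ hPl hQl hdeg _ (h2 n)).1]
      have h5 : (Set.range fun n => (some (f^[n] (f x)) : Option L)).Infinite := by
        refine Set.infinite_range_of_injective fun a b hab => ?_
        have h6 : f^[a] (f x) = f^[b] (f x) := Option.some_injective _ hab
        exact h3.injective (by simp only [h6])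
      refine h5 (hz.subset ?_)
      rintro _ ⟨n, rfl⟩
      exact ⟨n + 1, h4 n⟩
  · rintro (rfl | ⟨x, hx, rfl⟩)
    · refine (Set.finite_singleton none).subset ?_
      rintro _ ⟨n, rfl⟩
      induction n with
      | zero => rfl
      | succ n ih =>
        simp only [Set.mem_singleton_iff] at ih ⊢
        rw [Function.iterate_succ_apply', ih]
        rfl
    · refine (Set.toFinite {none, some x}).subset ?_
      rintro _ ⟨n, rfl⟩
      induction n with
      | zero => simp
      | succ n ih =>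
        simp only [Set.mem_insert_iff, Set.mem_singleton_iff] at ih ⊢
        left
        rw [Function.iterate_succ_apply']
        rcases ih with h | h
        · rw [h]
          rfl
        · rw [h]
          simp [mp, show Q.eval x = 0 from hx]

end Dyn

end Pool.Agent.R437.FF
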