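import Mathlib
import Pool.Agent.R437.FF.Loc

/-! Preperiodic points of small degree of the maps `c + P / Q ^ m` over a field of rational
functions. -/

set_option autoImplicit false

open Polynomial

namespace Pool.Agent.R437.FF

variable {k : Type} [Field k]

/-- the coefficients of `F` are integral at `π` -/
def IntegralAt (π : k[X]) (F : (RatFunc k)[X]) : Prop := ∀ i, ¬ π ∣ (F.coeff i).denom

/-- the leading coefficient of `F`, if it is integral at `π`, is a unit at `π` -/
def UnitLead (π : k[X]) (F : (RatFunc k)[X]) : Prop := ¬ π ∣ F.leadingCoeff.num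

/-- `P` and `Q` are integral at `π` with leading coefficients which are units, and coprime
modulo `π`. -/
def GoodAt (π : k[X]) (P Q : (RatFunc k)[X]) : Prop :=
  IntegralAt π P ∧ IntegralAt π Q ∧ UnitLead π P ∧ UnitLead π Q ∧
  ∃ A B : (RatFunc k)[X], A * P + B * Q = 1 ∧ IntegralAt π A ∧ IntegralAt π B

/-- the self-map of the projective line over `L` given by `c + P / Q ^ m` -/
noncomputable def map (c : RatFunc k) (P Q : (RatFunc k)[X]) (m : ℕ) (L : Type) [Field L]
    [Algebra (RatFunc k) L] : Option L → Option L :=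
  mp (algebraMap (RatFunc k) L c) (P.map (algebraMap (RatFunc k) L))
    (Q.map (algebraMap (RatFunc k) L)) m

/-- the points of finite orbit over `L` are `∞` and the poles -/
def OnlyPoles (c : RatFunc k) (P Q : (RatFunc k)[X]) (m : ℕ) (L : Type) [Field L]
    [Algebra (RatFunc k) L] : Prop :=
  {z : Option L | (Set.range fun n : ℕ => (map c P Q m L)^[n] z).Finite} =
    insert none (some '' {x | (Q.map (algebraMap (RatFunc k) L)).eval x = 0})

section

variable {L Γ : Type} [Field L] [LinearOrderedCommGroupWithZero Γ]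
  {v : Valuation L Γ} {π : k[X]} {ρ : RatFunc k →+* L}

theorem v_int (h1 : ∀ a, v (ρ (algebraMap k[X] (RatFunc k) a)) ≤ 1)
    (hv : v (ρ (algebraMap k[X] (RatFunc k) π)) < 1) (hπ : Irreducible π) {x : RatFunc k}
    (hx : ¬ π ∣ x.denom) : v (ρ x) = v (ρ (algebraMap k[X] (RatFunc k) x.num)) := by
  have e : v (ρ x) = v (ρ (algebraMap k[X] (RatFunc k) x.num)) /
      v (ρ (algebraMap k[X] (RatFunc k) x.denom)) := by
    rw [← map_div₀, ← map_div₀, RatFunc.num_div_denom]
  have e2 := v_unit (ι := ρ.comp (algebraMap k[X] (RatFunc k))) h1 hv hπ hx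
  simp only [RingHom.comp_apply] at e2
  rw [e, e2, div_one]

theorem v_pole (h1 : ∀ a, v (ρ (algebraMap k[X] (RatFunc k) a)) ≤ 1)
    (hv : v (ρ (algebraMap k[X] (RatFunc k) π)) < 1) (hπ : Irreducible π) {x : RatFunc k} {n : ℕ}
    (hn : 1 ≤ n) (hx : π ^ n ∣ x.denom) (hx' : ¬ π ^ (n + 1) ∣ x.denom) :
    v (ρ x) = v (ρ (algebraMap k[X] (RatFunc k) π)) ^ (-(n : ℤ)) := by
  have e : v (ρ x) = v (ρ (algebraMap k[X] (RatFunc k) x.num)) /
      v (ρ (algebraMap k[X] (RatFunc k) x.denom)) := by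
    rw [← map_div₀, ← map_div₀, RatFunc.num_div_denom]
  obtain ⟨w, hw⟩ := hx
  have h2 : ¬ π ∣ w := by
    rintro ⟨w', rfl⟩
    exact hx' ⟨w', by rw [hw]; ring⟩
  have h3 : ¬ π ∣ x.num := by
    intro h
    have h4 : π ∣ x.denom := by
      rw [hw]
      exact dvd_mul_of_dvd_left (dvd_pow_self π (by omega)) w
    exact hπ.not_isUnit ((RatFunc.isCoprime_num_denom x).isUnit_of_dvd' h h4)
  have e2 := v_unit (ι := ρ.comp (algebraMap k[X] (RatFunc k))) h1 hv hπ h2
  have e3 := v_unit (ι := ρ.comp (algebraMap k[X] (RatFunc k))) h1 hv hπ h3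
  simp only [RingHom.comp_apply] at e2 e3
  rw [e, e3, hw, map_mul, map_mul, map_mul, map_pow, map_pow, map_pow, e2, mul_one, zpow_neg,
    zpow_natCast, one_div]

end

/-- the local theorem -/
theorem onlyPoles {c : RatFunc k} {π : k[X]} (hπ : Irreducible π) {n : ℕ} (hn : 1 ≤ n)
    (hc : π ^ n ∣ c.denom) (hc' : ¬ π ^ (n + 1) ∣ c.denom) {P Q : (RatFunc k)[X]}
    (hg : GoodAt π P Q) {m e : ℕ} (hdeg : P.natDegree = m * Q.natDegree + e)
    (hnm : n.Coprime m) (hne : n.Coprime e) (L : Type) [Field L] [Algebra (RatFunc k) L]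
    [FiniteDimensional (RatFunc k) L] (hLm : Module.finrank (RatFunc k) L < m)
    (hLe : Module.finrank (RatFunc k) L < e) : OnlyPoles c P Q m L := by
  classical
  obtain ⟨g1, g2, g3, g4, A, B, g5, g6, g7⟩ := hg
  set ρ := algebraMap (RatFunc k) L with hρ
  have hinj : Function.Injective (ρ.comp (algebraMap k[X] (RatFunc k))) :=
    ρ.injective.comp (RatFunc.algebraMap_injective k)
  obtain ⟨W, h1, hv⟩ := exists_val _ hinj hπ
  set v := W.valuation with hvdef
  have h1' : ∀ a, v (ρ (algebraMap k[X] (RatFunc k) a)) ≤ 1 := h1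
  have hv' : v (ρ (algebraMap k[X] (RatFunc k) π)) < 1 := hv
  have hcoef : ∀ F : (RatFunc k)[X], (∀ i, ¬ π ∣ (F.coeff i).denom) →
      ∀ i, v ((F.map ρ).coeff i) ≤ 1 := by
    intro F hF i
    rw [coeff_map, v_int h1' hv' hπ (hF i)]
    exact h1' _
  have hlead : ∀ F : (RatFunc k)[X], (∀ i, ¬ π ∣ (F.coeff i).denom) → ¬ π ∣ F.leadingCoeff.num →
      v (F.map ρ).leadingCoeff = 1 := by
    intro F hF hl
    have e1 : v (ρ F.leadingCoeff) = v (ρ (algebraMap k[X] (RatFunc k) F.leadingCoeff.num)) :=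
      v_int h1' hv' hπ (hF F.natDegree)
    rw [leadingCoeff_map, e1]
    exact v_unit (ι := ρ.comp (algebraMap k[X] (RatFunc k))) h1 hv hπ hl
  have hvc : v (ρ c) = v (ρ (algebraMap k[X] (RatFunc k) π)) ^ (-(n : ℤ)) :=
    v_pole h1' hv' hπ hn hc hc'
  have h0 : v (ρ (algebraMap k[X] (RatFunc k) π)) ≠ 0 := by
    rw [Ne, map_eq_zero, map_eq_zero]
    exact fun h => hπ.ne_zero ((map_eq_zero_iff _ (RatFunc.algebraMap_injective k)).1 h)
  have hc1 : 1 < v (ρ c) := by
    rw [hvc, zpow_neg, zpow_natCast]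
    exact (one_lt_inv₀ (zero_lt_iff.2 (pow_ne_zero _ h0))).2
      (pow_lt_one₀ zero_le hv' (by omega))
  have hroot : ∀ j : ℕ, n.Coprime j → Module.finrank (RatFunc k) L < j →
      ∀ x : L, v x ^ j ≠ v (ρ c) := by
    intro j hj hLj x hx
    refine no_root h1' hv' hπ hj x (minpoly (RatFunc k) x)
      (minpoly.ne_zero (Algebra.IsIntegral.isIntegral x))
      (lt_of_le_of_lt (minpoly.natDegree_le x) hLj) ?_ (hx.trans hvc)
    rw [eval_map_algebraMap]
    exact minpoly.aeval _ x
  have hL1 : 1 ≤ Module.finrank (RatFunc k) L := Module.finrank_pos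
  have hAB : A.map ρ * P.map ρ + B.map ρ * Q.map ρ = 1 := by
    rw [← Polynomial.map_mul, ← Polynomial.map_mul, ← Polynomial.map_add, g5, Polynomial.map_one]
  exact preper (e := e) hc1 (by omega) (hcoef P g1) (hcoef Q g2) (hcoef A g6) (hcoef B g7) hAB
    (hlead P g1 g3) (hlead Q g2 g4) (by rw [natDegree_map, natDegree_map, hdeg])
    (hroot m hnm hLm) (hroot e hne hLe)

end Pool.Agent.R437.FF
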