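import Mathlib
import Pool.Agent.R437.FF.Cnt

/-! The number of rational functions of height at most `B` over a finite field is at least
`q ^ (2 B)`. -/

set_option autoImplicit false

open Polynomial

namespace Pool.Agent.R437.FF

variable {k : Type} [Field k]

theorem mon_inj {n : ℕ} {f g : Fin n → k} (h : mon n f = mon n g) : f = g := by
  unfold mon at h
  exact pl_inj (add_left_cancel h)

/-- the rational function of a pair -/
noncomputable def rf (B : ℕ) (t : (Fin B → k) × (Fin (B + 1) → k)) : RatFunc k :=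
  algebraMap k[X] (RatFunc k) (pl (B + 1) t.2) / algebraMap k[X] (RatFunc k) (mon B t.1)

theorem facts (B : ℕ) (t : (Fin B → k) × (Fin (B + 1) → k)) :
    ∃ g : k[X], g.Monic ∧ mon B t.1 / (rf B t).denom = g ∧ mon B t.1 = (rf B t).denom * g ∧
      pl (B + 1) t.2 = (rf B t).num * g := by
  have hw := mon_monic B t.1
  have hd := RatFunc.monic_denom (rf B t)
  obtain ⟨g, hg⟩ := RatFunc.denom_div_dvd (pl (B + 1) t.2) (mon B t.1)
  change mon B t.1 = (rf B t).denom * g at hg
  have hg1 : g.Monic := hd.of_mul_monic_left (hg ▸ hw)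
  refine ⟨g, hg1, ?_, hg, ?_⟩
  · rw [hg, mul_div_cancel_left₀ _ hd.ne_zero]
  · have h2 : algebraMap k[X] (RatFunc k) (rf B t).denom ≠ 0 := by
      rw [Ne, map_eq_zero_iff _ (RatFunc.algebraMap_injective k)]
      exact hd.ne_zero
    have h3 : algebraMap k[X] (RatFunc k) g ≠ 0 := by
      rw [Ne, map_eq_zero_iff _ (RatFunc.algebraMap_injective k)]
      exact hg1.ne_zero
    apply RatFunc.algebraMap_injective k
    rw [map_mul]
    have h4 : algebraMap k[X] (RatFunc k) (rf B t).num /
        algebraMap k[X] (RatFunc k) (rf B t).denom = algebraMap k[X] (RatFunc k) (pl (B + 1) t.2) /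
        (algebraMap k[X] (RatFunc k) (rf B t).denom * algebraMap k[X] (RatFunc k) g) := by
      rw [RatFunc.num_div_denom, ← map_mul, ← hg]
      rfl
    rw [div_eq_div_iff h2 (mul_ne_zero h2 h3)] at h4
    have h5 : algebraMap k[X] (RatFunc k) (rf B t).denom *
        algebraMap k[X] (RatFunc k) (pl (B + 1) t.2) =
        algebraMap k[X] (RatFunc k) (rf B t).denom *
        (algebraMap k[X] (RatFunc k) (rf B t).num * algebraMap k[X] (RatFunc k) g) := by
      linear_combination -h4
    exact mul_left_cancel₀ h2 h5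

/-- pairs which are not coprime -/
def NC (k : Type) [Field k] (B : ℕ) : Set ((Fin B → k) × (Fin (B + 1) → k)) :=
  {t | (rf B t).denom ≠ mon B t.1}

/-- the injection -/
noncomputable def Psi (B : ℕ) (t : (Fin B → k) × (Fin (B + 1) → k)) :
    k × (Fin (B - 1) → k) × (Fin B → k) :=
  ((mon B t.1 / (rf B t).denom).coeff 0,
    fun i => ((rf B t).denom * divX (mon B t.1 / (rf B t).denom) - X ^ (B - 1)).coeff i,
    fun i => ((rf B t).num * divX (mon B t.1 / (rf B t).denom)).coeff i)

theorem nc_facts {B : ℕ} {t : (Fin B → k) × (Fin (B + 1) → k)} (ht : t ∈ NC k B) {g : k[X]}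
    (hg : g.Monic) (h1 : mon B t.1 = (rf B t).denom * g) (h2 : pl (B + 1) t.2 = (rf B t).num * g) :
    1 ≤ g.natDegree ∧ (divX g).Monic ∧
      ((rf B t).denom * divX g - X ^ (B - 1)).degree < ((B - 1 : ℕ) : WithBot ℕ) ∧
      ((rf B t).num * divX g).degree < (B : WithBot ℕ) := by
  have hd := RatFunc.monic_denom (rf B t)
  have hg1 : 1 ≤ g.natDegree := by
    by_contra h
    have h3 : g.natDegree = 0 := by omega
    have h4 : g = 1 := hg.natDegree_eq_zero.1 h3
    apply ht
    rw [h1, h4, mul_one]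
  have hdX : (divX g).natDegree = g.natDegree - 1 := natDegree_divX_eq_natDegree_tsub_one
  have hm : (divX g).Monic := by
    unfold Monic leadingCoeff
    rw [hdX, coeff_divX, Nat.sub_add_cancel hg1]
    exact hg
  have hB : B = (rf B t).denom.natDegree + g.natDegree := by
    rw [← hd.natDegree_mul hg, ← h1, mon_natDegree]
  refine ⟨hg1, hm, ?_, ?_⟩
  · have hmm := hd.mul hm
    have hn : ((rf B t).denom * divX g).natDegree = B - 1 := by
      rw [hd.natDegree_mul hm, hdX]
      omega
    have h2 : ((rf B t).denom * divX g).degree = ((B - 1 : ℕ) : WithBot ℕ) := by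
      rw [← hn]; exact degree_eq_natDegree hmm.ne_zero
    have h3 := degree_sub_lt_left (p := (rf B t).denom * divX g) (q := X ^ (B - 1))
      (by rw [h2, degree_X_pow]) hmm.ne_zero
      (by rw [hmm.leadingCoeff, leadingCoeff_X_pow])
    rwa [h2] at h3
  · by_cases h0 : (rf B t).num = 0
    · rw [h0, zero_mul, degree_zero]
      exact_mod_cast WithBot.bot_lt_coe B
    · have h5 : (pl (B + 1) t.2).natDegree = (rf B t).num.natDegree + g.natDegree := by
        rw [h2, natDegree_mul h0 hg.ne_zero]
      have h6 : (pl (B + 1) t.2).natDegree < B + 1 := by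
        have h7 := pl_deg t.2
        have h8 : pl (B + 1) t.2 ≠ 0 := by
          rw [h2]
          exact mul_ne_zero h0 hg.ne_zero
        rw [degree_eq_natDegree h8] at h7
        exact_mod_cast h7
      have h9 : ((rf B t).num * divX g).natDegree < B := by
        rw [natDegree_mul h0 hm.ne_zero, hdX]
        omega
      exact lt_of_le_of_lt degree_le_natDegree (by exact_mod_cast h9)

theorem Psi_inj (B : ℕ) : Set.InjOn (Psi (k := k) B) (NC k B) := by
  intro t ht t' ht' h
  obtain ⟨g, hg, h1, h2, h3⟩ := facts B t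
  obtain ⟨g', hg', h1', h2', h3'⟩ := facts B t'
  obtain ⟨-, hm, a1, a2⟩ := nc_facts ht hg h2 h3
  obtain ⟨-, hm', a1', a2'⟩ := nc_facts ht' hg' h2' h3'
  unfold Psi at h
  rw [h1, h1'] at h
  obtain ⟨b1, b2, b3⟩ : g.coeff 0 = g'.coeff 0 ∧
      (fun i : Fin (B - 1) => ((rf B t).denom * divX g - X ^ (B - 1)).coeff i) =
        (fun i : Fin (B - 1) => ((rf B t').denom * divX g' - X ^ (B - 1)).coeff i) ∧
      (fun i : Fin B => ((rf B t).num * divX g).coeff i) =
        (fun i : Fin B => ((rf B t').num * divX g').coeff i) := by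
    rw [Prod.mk.injEq, Prod.mk.injEq] at h
    exact h
  have c2 : (rf B t).denom * divX g = (rf B t').denom * divX g' := by
    have e1 := pl_surj a1
    have e2 := pl_surj a1'
    rw [b2, e2] at e1
    exact (sub_left_inj.1 e1).symm
  have c3 : (rf B t).num * divX g = (rf B t').num * divX g' := by
    rw [← pl_surj a2, b3, pl_surj a2']
  have key : ∀ (s : (Fin B → k) × (Fin (B + 1) → k)) (y : k[X]), y.Monic →
      rf B s = algebraMap k[X] (RatFunc k) ((rf B s).num * y) /
        algebraMap k[X] (RatFunc k) ((rf B s).denom * y) := by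
    intro s y hy
    have h3 : algebraMap k[X] (RatFunc k) y ≠ 0 := by
      rw [Ne, map_eq_zero_iff _ (RatFunc.algebraMap_injective k)]
      exact hy.ne_zero
    rw [map_mul, map_mul, mul_div_mul_right _ _ h3, RatFunc.num_div_denom]
  have c4 : rf B t = rf B t' := by
    rw [key t _ hm, key t' _ hm', c2, c3]
  rw [← c4] at c2 h2' h3'
  have c5 : divX g = divX g' := mul_left_cancel₀ (RatFunc.monic_denom (rf B t)).ne_zero c2
  have c6 : g = g' := by
    rw [← divX_mul_X_add g, ← divX_mul_X_add g', c5, b1]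
  rw [← c6] at h2' h3'
  exact Prod.ext (mon_inj (h2.trans h2'.symm)) (pl_inj (h3.trans h3'.symm))

theorem nc_zero : NC k 0 = ∅ := by
  ext t
  simp only [Set.mem_empty_iff_false, iff_false]
  intro ht
  obtain ⟨g, hg, h1, h2, h3⟩ := facts 0 t
  obtain ⟨h4, -, -, -⟩ := nc_facts ht hg h2 h3
  have h5 := mon_natDegree 0 t.1
  rw [h2, (RatFunc.monic_denom (rf 0 t)).natDegree_mul hg] at h5
  omega

variable [Fintype k]

theorem low (B : ℕ) : Fintype.card k ^ (2 * B) ≤ {c : RatFunc k | ht c ≤ B}.ncard := by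
  classical
  set q := Fintype.card k with hq
  have hq1 : 2 ≤ q := Fintype.one_lt_card
  have h1 : (NC k B).ncard ≤ q ^ (2 * B) := by
    rcases Nat.eq_zero_or_pos B with rfl | hB
    · rw [nc_zero, Set.ncard_empty]
      exact Nat.zero_le _
    · have h2 : (Psi B '' NC k B).ncard = (NC k B).ncard := (Psi_inj B).ncard_image
      rw [← h2]
      have h3 : (Psi B '' NC k B).ncard ≤ (Set.univ : Set (k × (Fin (B - 1) → k) ×
          (Fin B → k))).ncard := Set.ncard_le_ncard (Set.subset_univ _) Set.finite_univ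
      refine h3.trans (le_of_eq ?_)
      rw [Set.ncard_univ, Nat.card_eq_fintype_card, Fintype.card_prod, Fintype.card_prod,
        Fintype.card_fun, Fintype.card_fun, Fintype.card_fin, Fintype.card_fin, ← hq]
      obtain ⟨b, rfl⟩ : ∃ b, B = b + 1 := ⟨B - 1, by omega⟩
      rw [Nat.add_sub_cancel]
      ring
  have h4 : ((NC k B)ᶜ).ncard = q ^ (2 * B + 1) - (NC k B).ncard := by
    have h5 := Set.ncard_add_ncard_compl (NC k B)
    have h6 : Nat.card ((Fin B → k) × (Fin (B + 1) → k)) = q ^ (2 * B + 1) := by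
      rw [Nat.card_eq_fintype_card, Fintype.card_prod, Fintype.card_fun, Fintype.card_fun,
        Fintype.card_fin, Fintype.card_fin, ← hq, ← pow_add]
      congr 1
      omega
    omega
  have h5 : q ^ (2 * B) ≤ ((NC k B)ᶜ).ncard := by
    rw [h4]
    have : 2 * q ^ (2 * B) ≤ q ^ (2 * B + 1) := by
      rw [pow_succ, mul_comm]
      exact Nat.mul_le_mul_left _ hq1
    omega
  refine h5.trans ?_
  have hinj : Set.InjOn (rf (k := k) B) ((NC k B)ᶜ) := by
    intro t ht t' ht' h
    have h6 : (rf B t).denom = mon B t.1 := by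
      by_contra h7
      exact ht h7
    have h6' : (rf B t').denom = mon B t'.1 := by
      by_contra h7
      exact ht' h7
    obtain ⟨g, hg, h1, h2, h3⟩ := facts B t
    obtain ⟨g', hg', h1', h2', h3'⟩ := facts B t'
    rw [← h6] at h1 h2
    rw [← h6'] at h1' h2'
    have e1 : g = 1 := by
      rw [← h1, EuclideanDomain.div_self (RatFunc.monic_denom _).ne_zero]
    have e2 : g' = 1 := by
      rw [← h1', EuclideanDomain.div_self (RatFunc.monic_denom _).ne_zero]
    refine Prod.ext (mon_inj ?_) (pl_inj ?_)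
    · rw [← h6, ← h6', h]
    · rw [h3, h3', h, e1, e2]
  rw [← hinj.ncard_image]
  refine Set.ncard_le_ncard ?_ (finite_ht B)
  rintro _ ⟨t, ht, rfl⟩
  have h6 : (rf B t).denom = mon B t.1 := by
    by_contra h7
    exact ht h7
  obtain ⟨g, hg, h1, h2, h3⟩ := facts B t
  have e1 : g = 1 := by
    rw [← h1, ← h6, EuclideanDomain.div_self (RatFunc.monic_denom _).ne_zero]
  rw [e1, mul_one] at h3
  show max _ _ ≤ B
  rw [h6, mon_natDegree, ← h3]
  refine max_le ?_ le_rfl
  have h7 := pl_deg t.2
  by_cases h0 : pl (B + 1) t.2 = 0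
  · rw [h0, natDegree_zero]
    exact Nat.zero_le _
  · exact Nat.lt_succ_iff.1 ((natDegree_lt_iff_degree_lt h0).2 h7)

end Pool.Agent.R437.FF
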